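import Pool.Agent.Helper34.PU.Goals

/-!
MP_8060f4_co : a Bernstein type inequality for uniform independent samples.
-/

set_option autoImplicit false

open Finset
open scoped Classical

namespace Pool.Agent.Helper5.PU

open Pool.Agent.Helper34.PU

theorem one_side (Ω : Type) [Fintype Ω] [Nonempty Ω] (N : ℕ) (Y : Ω → ℝ) (p t : ℝ)
    (hY : ∀ ω, |Y ω| ≤ 2) (h0 : ∑ ω, Y ω = 0) (h2 : ∑ ω, Y ω ^ 2 ≤ p * Fintype.card Ω)
    (ht : 0 < t) (ht1 : t ≤ 1) :
    ((univ.filter (fun x : Fin N → Ω => t * p * N ≤ ∑ i, Y (x i))).card : ℝ)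
      ≤ Real.exp (-(t ^ 2 * p * N / 4)) * (Fintype.card Ω : ℝ) ^ N := by
  set l : ℝ := t / 2 with hl
  have hl0 : 0 < l := by positivity
  have hl1 : l ≤ 1 / 2 := by rw [hl]; linarith
  have hS : ∑ ω, Real.exp (l * Y ω) ≤ Fintype.card Ω * Real.exp (l ^ 2 * p) := by
    have h1 : ∀ ω, Real.exp (l * Y ω) ≤ 1 + l * Y ω + (l * Y ω) ^ 2 := by
      intro ω
      have habs : |l * Y ω| ≤ 1 := by
        rw [abs_mul, abs_of_pos hl0]
        calc l * |Y ω| ≤ (1 / 2) * 2 := by
              apply mul_le_mul hl1 (hY ω) (abs_nonneg _) (by norm_num)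
          _ = 1 := by norm_num
      have := Real.abs_exp_sub_one_sub_id_le habs
      have h3 := (abs_le.1 this).2
      linarith
    calc ∑ ω, Real.exp (l * Y ω) ≤ ∑ ω, (1 + l * Y ω + (l * Y ω) ^ 2) :=
          Finset.sum_le_sum (fun ω _ => h1 ω)
      _ = Fintype.card Ω + l * ∑ ω, Y ω + l ^ 2 * ∑ ω, Y ω ^ 2 := by
          rw [Finset.sum_add_distrib, Finset.sum_add_distrib, Finset.mul_sum, Finset.mul_sum]
          simp only [mul_pow, Finset.sum_const, Finset.card_univ, nsmul_eq_mul, mul_one]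
      _ ≤ Fintype.card Ω + l ^ 2 * (p * Fintype.card Ω) := by
          rw [h0, mul_zero, add_zero]
          have := mul_le_mul_of_nonneg_left h2 (sq_nonneg l)
          linarith
      _ = Fintype.card Ω * (l ^ 2 * p + 1) := by ring
      _ ≤ Fintype.card Ω * Real.exp (l ^ 2 * p) := by
          apply mul_le_mul_of_nonneg_left (Real.add_one_le_exp _) (by positivity)
  have hsum : ∑ x : Fin N → Ω, Real.exp (l * ∑ i, Y (x i)) = (∑ ω, Real.exp (l * Y ω)) ^ N := by
    rw [Fintype.sum_pow]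
    apply Finset.sum_congr rfl
    intro x _
    rw [Finset.mul_sum, Real.exp_sum]
  have hmark : ((univ.filter (fun x : Fin N → Ω => t * p * N ≤ ∑ i, Y (x i))).card : ℝ) *
      Real.exp (l * (t * p * N)) ≤ ∑ x : Fin N → Ω, Real.exp (l * ∑ i, Y (x i)) := by
    calc ((univ.filter (fun x : Fin N → Ω => t * p * N ≤ ∑ i, Y (x i))).card : ℝ) *
          Real.exp (l * (t * p * N))
        = ∑ x ∈ univ.filter (fun x : Fin N → Ω => t * p * N ≤ ∑ i, Y (x i)),
            Real.exp (l * (t * p * N)) := by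
          rw [Finset.sum_const, nsmul_eq_mul]
      _ ≤ ∑ x ∈ univ.filter (fun x : Fin N → Ω => t * p * N ≤ ∑ i, Y (x i)),
            Real.exp (l * ∑ i, Y (x i)) := by
          apply Finset.sum_le_sum
          intro x hx
          rw [Finset.mem_filter] at hx
          exact Real.exp_le_exp.2 (mul_le_mul_of_nonneg_left hx.2 hl0.le)
      _ ≤ ∑ x : Fin N → Ω, Real.exp (l * ∑ i, Y (x i)) := by
          apply Finset.sum_le_sum_of_subset_of_nonneg (Finset.filter_subset _ _)
          intro x _ _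
          exact (Real.exp_pos _).le
  have hpow : (∑ ω, Real.exp (l * Y ω)) ^ N ≤
      (Fintype.card Ω : ℝ) ^ N * Real.exp (l ^ 2 * p * N) := by
    calc (∑ ω, Real.exp (l * Y ω)) ^ N ≤ (Fintype.card Ω * Real.exp (l ^ 2 * p)) ^ N := by
          apply pow_le_pow_left₀ _ hS
          exact Finset.sum_nonneg (fun ω _ => (Real.exp_pos _).le)
      _ = (Fintype.card Ω : ℝ) ^ N * Real.exp (l ^ 2 * p * N) := by
          rw [mul_pow, ← Real.exp_nat_mul]
          congr 2
          ring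
  have hfin : ((univ.filter (fun x : Fin N → Ω => t * p * N ≤ ∑ i, Y (x i))).card : ℝ) *
      Real.exp (l * (t * p * N)) ≤ (Fintype.card Ω : ℝ) ^ N * Real.exp (l ^ 2 * p * N) :=
    hmark.trans (hsum.le.trans hpow)
  have hexp : Real.exp (l ^ 2 * p * N) =
      Real.exp (-(t ^ 2 * p * N / 4)) * Real.exp (l * (t * p * N)) := by
    rw [← Real.exp_add]
    congr 1
    rw [hl]
    ring
  rw [hexp] at hfin
  have hpos : 0 < Real.exp (l * (t * p * N)) := Real.exp_pos _
  have h5 : ((univ.filter (fun x : Fin N → Ω => t * p * N ≤ ∑ i, Y (x i))).card : ℝ) *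
      Real.exp (l * (t * p * N)) ≤ (Real.exp (-(t ^ 2 * p * N / 4)) * (Fintype.card Ω : ℝ) ^ N) *
      Real.exp (l * (t * p * N)) := by
    calc _ ≤ _ := hfin
      _ = _ := by ring
  exact le_of_mul_le_mul_right h5 hpos

theorem bern : BernStmt := by
  intro Ω _ _ N Z p t hZ hp hp0 ht ht1
  have hc : (0 : ℝ) < Fintype.card Ω := by
    exact_mod_cast Fintype.card_pos
  set m : ℝ := avg univ Z with hm
  have hmc : m * Fintype.card Ω = ∑ ω, Z ω := by
    rw [hm, avg, Finset.card_univ]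
    field_simp
  have hp' : ∑ ω, Z ω ^ 2 ≤ p * Fintype.card Ω := by
    rw [avg, Finset.card_univ, div_le_iff₀ hc] at hp
    exact hp
  have hm1 : |m| ≤ 1 := by
    rw [hm, avg, Finset.card_univ, abs_div, abs_of_pos hc, div_le_one hc]
    calc |∑ ω, Z ω| ≤ ∑ ω, |Z ω| := Finset.abs_sum_le_sum_abs _ _
      _ ≤ ∑ ω : Ω, (1 : ℝ) := Finset.sum_le_sum (fun ω _ => hZ ω)
      _ = Fintype.card Ω := by simp
  set Y : Ω → ℝ := fun ω => Z ω - m with hYdef
  have hY : ∀ ω, |Y ω| ≤ 2 := by
    intro ω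
    have h1 := abs_le.1 (hZ ω)
    have h2 := abs_le.1 hm1
    rw [abs_le]
    simp only [hYdef]
    constructor <;> linarith [h1.1, h1.2, h2.1, h2.2]
  have h0 : ∑ ω, Y ω = 0 := by
    simp only [hYdef, Finset.sum_sub_distrib, Finset.sum_const, Finset.card_univ, nsmul_eq_mul]
    linarith
  have h2 : ∑ ω, Y ω ^ 2 ≤ p * Fintype.card Ω := by
    have : ∑ ω, Y ω ^ 2 = ∑ ω, Z ω ^ 2 - m ^ 2 * Fintype.card Ω := by
      calc ∑ ω, Y ω ^ 2 = ∑ ω, (Z ω ^ 2 - 2 * m * Z ω + m ^ 2) := by
            apply Finset.sum_congr rfl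
            intro ω _
            simp only [hYdef]
            ring
        _ = ∑ ω, Z ω ^ 2 - 2 * m * ∑ ω, Z ω + Fintype.card Ω * m ^ 2 := by
            rw [Finset.sum_add_distrib, Finset.sum_sub_distrib, Finset.mul_sum]
            simp only [Finset.sum_const, Finset.card_univ, nsmul_eq_mul]
        _ = ∑ ω, Z ω ^ 2 - m ^ 2 * Fintype.card Ω := by
            rw [← hmc]; ring
    rw [this]
    have : 0 ≤ m ^ 2 * Fintype.card Ω := by positivity
    linarith
  have hpos := one_side Ω N Y p t hY h0 h2 ht ht1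
  have hneg := one_side Ω N (fun ω => - Y ω) p t (by simpa using hY)
    (by rw [Finset.sum_neg_distrib, h0, neg_zero]) (by simpa using h2) ht ht1
  have hsub : (univ.filter (fun x : Fin N → Ω => t * p * N ≤ |∑ i, Z (x i) - N * m|)) ⊆
      (univ.filter (fun x : Fin N → Ω => t * p * N ≤ ∑ i, Y (x i))) ∪
      (univ.filter (fun x : Fin N → Ω => t * p * N ≤ ∑ i, - Y (x i))) := by
    intro x hx
    rw [Finset.mem_filter] at hx
    have hsum : ∑ i, Y (x i) = ∑ i, Z (x i) - N * m := by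
      simp only [hYdef, Finset.sum_sub_distrib, Finset.sum_const, Finset.card_univ,
        Fintype.card_fin, nsmul_eq_mul]
    rw [Finset.mem_union, Finset.mem_filter, Finset.mem_filter, Finset.sum_neg_distrib, hsum]
    rcases le_total 0 (∑ i, Z (x i) - N * m) with h | h
    · left
      rw [abs_of_nonneg h] at hx
      exact hx
    · right
      rw [abs_of_nonpos h] at hx
      exact hx
  have hcard := (Finset.card_le_card hsub).trans (Finset.card_union_le _ _)
  have hcard' : ((univ.filter (fun x : Fin N → Ω => t * p * N ≤ |∑ i, Z (x i) - N * m|)).card : ℝ) ≤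
      ((univ.filter (fun x : Fin N → Ω => t * p * N ≤ ∑ i, Y (x i))).card : ℝ) +
      ((univ.filter (fun x : Fin N → Ω => t * p * N ≤ ∑ i, - Y (x i))).card : ℝ) := by
    exact_mod_cast hcard
  linarith

end Pool.Agent.Helper5.PU
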