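import Pool.Agent.Helper34.PU.Goals

/-!
MP_8060f4_co : rounding of families of functions of few coordinates.
-/

set_option autoImplicit false

open Finset
open scoped Classical

namespace Pool.Agent.Helper5.PU

open Pool.Agent.Helper34.PU

theorem rnd (hL : PFLibStmt) : RndStmt := by
  obtain ⟨hL1, -, hL3, -⟩ := hL
  intro β T D K ι _ h J R hR h01 hdep hJ
  have hR0 : (0 : ℝ) < R := by exact_mod_cast hR
  have hlt : ∀ i φ, ⌊(R : ℝ) * h i φ⌋₊ < R + 1 := by
    intro i φ
    have h1 : (R : ℝ) * h i φ ≤ R := by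
      have := mul_le_mul_of_nonneg_left (h01 i φ).2 hR0.le
      simpa using this
    have h2 : ⌊(R : ℝ) * h i φ⌋₊ ≤ R := by
      calc ⌊(R : ℝ) * h i φ⌋₊ ≤ ⌊(R : ℝ)⌋₊ := Nat.floor_mono h1
        _ = R := Nat.floor_natCast R
    omega
  set s : Pt T D → (ι → Fin (R + 1)) := fun φ i => ⟨⌊(R : ℝ) * h i φ⌋₊, hlt i φ⟩ with hs
  refine ⟨s, ?_, ?_⟩
  · intro i φ ψ he
    have h1 : ⌊(R : ℝ) * h i φ⌋₊ = ⌊(R : ℝ) * h i ψ⌋₊ := by
      have := congrFun he i
      simp only [hs] at this
      exact congrArg Fin.val this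
    have ha0 : 0 ≤ (R : ℝ) * h i φ := mul_nonneg hR0.le (h01 i φ).1
    have hb0 : 0 ≤ (R : ℝ) * h i ψ := mul_nonneg hR0.le (h01 i ψ).1
    have ha := Nat.floor_le ha0
    have ha' := Nat.lt_floor_add_one ((R : ℝ) * h i φ)
    have hb := Nat.floor_le hb0
    have hb' := Nat.lt_floor_add_one ((R : ℝ) * h i ψ)
    rw [h1] at ha ha'
    have h2 : |(R : ℝ) * h i φ - (R : ℝ) * h i ψ| ≤ 1 := by
      rw [abs_le]
      constructor <;> linarith
    rw [← mul_sub, abs_mul, abs_of_pos hR0] at h2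
    rw [le_div_iff₀ hR0]
    linarith
  · intro v
    have hprod : (fun φ => if s φ = v then (1 : ℝ) else 0) =
        fun φ => ∏ i ∈ (univ : Finset ι), (if s φ i = v i then (1 : ℝ) else 0) := by
      funext φ
      rw [Finset.prod_ite_zero]
      simp only [Finset.prod_const_one, Finset.mem_univ, true_implies, funext_iff]
    rw [hprod]
    apply hL3
    intro i _
    apply hL1 β T D ∅ K (J i) _ (Finset.empty_subset _) (hJ i).2 (hJ i).1
    · intro φ
      split_ifs <;> simp
    · intro φ ψ hφψ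
      have := hdep i φ ψ hφψ
      simp only [hs, this]

end Pool.Agent.Helper5.PU
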